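import Mathlib

set_option autoImplicit false
open Filter Topology
open scoped InnerProductSpace

namespace Pool.Agent.Results.MP_035205_an.NoBlockwiseExpectation

noncomputable section

section Defs

variable {M : Type*} [NonUnitalCStarAlgebra M] [PartialOrder M] [StarOrderedRing M]

/-- A closed ternary subspace of a C*-algebra `M`: a closed linear subspace `E` with
`x y* z ∈ E` for `x, y, z ∈ E`. With `⟨x, y⟩ = x* y` it is a right Hilbert module over the
C*-subalgebra `closedInner E`. -/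
def IsTernary (E : Submodule ℂ M) : Prop :=
  IsClosed (E : Set M) ∧ ∀ x ∈ E, ∀ y ∈ E, ∀ z ∈ E, x * star y * z ∈ E

/-- The closed linear span of the inner products `⟨x, y⟩ = x* y`, `x, y ∈ E`. -/
def closedInner (E : Submodule ℂ M) : Submodule ℂ M :=
  (Submodule.span ℂ {c : M | ∃ x ∈ E, ∃ y ∈ E, c = star x * y}).topologicalClosure

/-- The closed linear span of the products `x y*`, `x, y ∈ E` (acting on `E` by left
multiplication, this is the algebra `𝒦(E)`, as `x y* z = x ⟨y, z⟩`). -/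
def closedCompact (E : Submodule ℂ M) : Submodule ℂ M :=
  (Submodule.span ℂ {c : M | ∃ x ∈ E, ∃ y ∈ E, c = x * star y}).topologicalClosure

/-- The two by two matrices over `M`, with the C*-algebra norm. -/
abbrev Mat2 (M : Type*) : Type _ := CStarMatrix (Fin 2) (Fin 2) M

/-- The reduced linking algebra of `E`, as a subset of the C*-algebra of two by two matrices
over `M`. -/
def linking (E : Submodule ℂ M) : Set (Mat2 M) :=
  {X | X 0 0 ∈ closedInner E ∧ star (X 0 1) ∈ E ∧ X 1 0 ∈ E ∧ X 1 1 ∈ closedCompact E}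

/-- `X` vanishes outside the `(i, j)` corner. -/
def SupportedAt (i j : Fin 2) (X : Mat2 M) : Prop :=
  ∀ k l : Fin 2, (k, l) ≠ (i, j) → X k l = 0

/-- `Φ` is, on the linear subspace `L` of the C*-algebra `A`, a linear idempotent map of norm at
most one onto the subspace `K`: it is additive and homogeneous on `L`, maps `L` into `K`, is the
identity on `K` and does not increase norms on `L`. -/
def IsExpectation {A : Type*} [NormedAddCommGroup A] [NormedSpace ℂ A] (L K : Set A)
    (Φ : A → A) : Prop :=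
  (∀ X ∈ L, ∀ Y ∈ L, Φ (X + Y) = Φ X + Φ Y) ∧ (∀ c : ℂ, ∀ X ∈ L, Φ (c • X) = c • Φ X) ∧
  (∀ X ∈ L, Φ X ∈ K) ∧ (∀ X ∈ K, Φ X = X) ∧ (∀ X ∈ L, ‖Φ X‖ ≤ ‖X‖)

/-- `Φ` is a blockwise conditional expectation of the linking algebra of `E` onto the linking
algebra of `F` whose restriction to the `(2, 1)` corner is `P`. -/
def IsBlockwiseExpectation (E F : Submodule ℂ M) (P : M → M) (Φ : Mat2 M → Mat2 M) : Prop :=
  IsExpectation (linking E) (linking F) Φ ∧
  (∀ i j : Fin 2, ∀ X ∈ linking E, SupportedAt i j X → SupportedAt i j (Φ X)) ∧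
  (∀ X ∈ linking E, SupportedAt 1 0 X → Φ X 1 0 = P (X 1 0))

end Defs

/-- the matrix with a single entry in the `(1,1)` corner -/
def emb {M : Type*} [NonUnitalCStarAlgebra M] (a : M) : CStarMatrix (Fin 2) (Fin 2) M :=
  CStarMatrix.ofMatrix (Matrix.of ![![a, 0], ![0, 0]])

section Emb
variable {M : Type*} [NonUnitalCStarAlgebra M] [PartialOrder M] [StarOrderedRing M]

/-- The corner embedding as a star homomorphism. -/
def embHom : M →⋆ₙₐ[ℂ] CStarMatrix (Fin 2) (Fin 2) M where
  toFun := emb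
  map_smul' c a := by
    ext i j; fin_cases i <;> fin_cases j <;> simp [emb]
  map_zero' := by
    ext i j; fin_cases i <;> fin_cases j <;> simp [emb]
  map_add' a b := by
    ext i j; fin_cases i <;> fin_cases j <;> simp [emb]
  map_mul' a b := by
    ext i j; fin_cases i <;> fin_cases j <;> simp [emb, CStarMatrix.mul_apply]
  map_star' a := by
    ext i j; fin_cases i <;> fin_cases j <;> simp [emb, CStarMatrix.star_apply]

lemma norm_emb_le (a : M) : ‖emb a‖ ≤ ‖a‖ :=
  NonUnitalStarAlgHom.norm_apply_le (embHom (M := M)) a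

end Emb

abbrev H : Type := lp (fun _ : ℕ => ℂ) 2
abbrev B : Type := H →L[ℂ] H

/-- the standard unit vectors -/
def ee (n : ℕ) : H := lp.single 2 n (1 : ℂ)

lemma norm_ee (n : ℕ) : ‖ee n‖ = 1 := by
  simp [ee, lp.norm_single]

lemma inner_ee (n : ℕ) (x : H) : ⟪ee n, x⟫_ℂ = x n := by
  rw [ee, lp.inner_single_left]
  simp

/-- rank one operator -/
def rk (x y : H) : B := (innerSL ℂ y).smulRight x

lemma rk_apply (x y z : H) : rk x y z = ⟪y, z⟫_ℂ • x := rfl

lemma star_rk (x y : H) : star (rk x y) = rk y x := by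
  rw [ContinuousLinearMap.star_eq_adjoint]
  symm
  rw [ContinuousLinearMap.eq_adjoint_iff]
  intro a b
  rw [rk_apply, rk_apply, inner_smul_left, inner_smul_right, inner_conj_symm]
  ring

lemma norm_rk_le (x y : H) : ‖rk x y‖ ≤ ‖x‖ * ‖y‖ := by
  refine ContinuousLinearMap.opNorm_le_bound _ (by positivity) (fun z => ?_)
  rw [rk_apply, norm_smul]
  calc ‖⟪y, z⟫_ℂ‖ * ‖x‖ ≤ (‖y‖ * ‖z‖) * ‖x‖ :=
        mul_le_mul_of_nonneg_right (norm_inner_le_norm _ _) (norm_nonneg _)
    _ = ‖x‖ * ‖y‖ * ‖z‖ := by ring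

lemma inner_ee_self (n : ℕ) : ⟪ee n, ee n⟫_ℂ = 1 := by
  rw [inner_self_eq_norm_sq_to_K, norm_ee]; simp

/-- coordinates tend to zero -/
lemma coord_tendsto (v : H) : Tendsto (fun n => ‖v n‖) atTop (𝓝 0) := by
  have h1 := lp.hasSum_norm (p := 2) (E := fun _ : ℕ => ℂ) (by norm_num) v
  have h2 := h1.summable.tendsto_atTop_zero
  have h3 : Tendsto (fun n => Real.sqrt (‖v n‖ ^ (2 : ENNReal).toReal)) atTop (𝓝 (Real.sqrt 0)) :=
    h2.sqrt
  rw [Real.sqrt_zero] at h3
  refine h3.congr (fun n => ?_)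
  have : (2 : ENNReal).toReal = ((2 : ℕ) : ℝ) := by norm_num
  rw [this, Real.rpow_natCast, Real.sqrt_sq (norm_nonneg _)]

/-- the rank one projection -/
def e0 : B := rk (ee 0) (ee 0)

/-- The right ideal `e B`. -/
def FF : Submodule ℂ B where
  carrier := {x | e0 * x = x}
  add_mem' := by
    intro a b ha hb
    change e0 * (a + b) = a + b
    rw [mul_add, ha, hb]
  zero_mem' := mul_zero _
  smul_mem' := by
    intro c a ha
    change e0 * (c • a) = c • a
    rw [mul_smul_comm, ha]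

lemma mem_FF (x : B) : x ∈ FF ↔ e0 * x = x := Iff.rfl

lemma e0_idem : e0 * e0 = e0 := by
  ext1 z
  rw [mul_apply_eq_comp]
  simp only [e0, rk_apply, inner_smul_right, inner_ee_self, mul_one]

lemma FF_apply {x : B} (hx : x ∈ FF) (z : H) :
    x z = ⟪ContinuousLinearMap.adjoint x (ee 0), z⟫_ℂ • ee 0 := by
  have h1 : (e0 * x) z = x z := by rw [(mem_FF x).1 hx]
  rw [mul_apply_eq_comp, e0, rk_apply] at h1
  rw [← h1, ContinuousLinearMap.adjoint_inner_left]

lemma FF_tendsto {x : B} (hx : x ∈ FF) : Tendsto (fun n => ‖x (ee n)‖) atTop (𝓝 0) := by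
  have h := coord_tendsto (ContinuousLinearMap.adjoint x (ee 0))
  refine h.congr (fun n => ?_)
  rw [FF_apply hx, norm_smul, norm_ee, mul_one, ← inner_conj_symm, RCLike.norm_conj, inner_ee]

lemma inner_tendsto {c : B} (hc : c ∈ closedInner FF) :
    Tendsto (fun n => ⟪ee n, c (ee n)⟫_ℂ) atTop (𝓝 0) := by
  -- first on the span
  have hspan : ∀ d ∈ Submodule.span ℂ {c : B | ∃ x ∈ FF, ∃ y ∈ FF, c = star x * y},
      Tendsto (fun n => ⟪ee n, d (ee n)⟫_ℂ) atTop (𝓝 0) := by
    intro d hd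
    induction hd using Submodule.span_induction with
    | mem d hd =>
      obtain ⟨x, hx, y, hy, rfl⟩ := hd
      rw [tendsto_zero_iff_norm_tendsto_zero]
      have h1 := (FF_tendsto hx).mul_const ‖y‖
      rw [zero_mul] at h1
      refine squeeze_zero (fun n => norm_nonneg _) (fun n => ?_) h1
      rw [mul_apply_eq_comp, ContinuousLinearMap.star_eq_adjoint,
        ContinuousLinearMap.adjoint_inner_right]
      refine (norm_inner_le_norm _ _).trans ?_
      refine mul_le_mul_of_nonneg_left ?_ (norm_nonneg _)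
      refine (y.le_opNorm _).trans ?_
      rw [norm_ee, mul_one]
    | zero => simp
    | add a b _ _ ha hb =>
      have := ha.add hb
      rw [add_zero] at this
      refine this.congr (fun n => ?_)
      rw [add_apply, inner_add_right]
    | smul c a _ ha =>
      have := ha.const_mul c
      rw [mul_zero] at this
      refine this.congr (fun n => ?_)
      rw [smul_apply, inner_smul_right]
  rw [tendsto_zero_iff_norm_tendsto_zero, Metric.tendsto_atTop]
  intro ε hε
  have hc' : c ∈ closure ((Submodule.span ℂ {c : B | ∃ x ∈ FF, ∃ y ∈ FF, c = star x * y} :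
      Submodule ℂ B) : Set B) := hc
  obtain ⟨d, hd, hcd⟩ := Metric.mem_closure_iff.1 hc' (ε / 2) (by positivity)
  have h2 := hspan d hd
  rw [tendsto_zero_iff_norm_tendsto_zero, Metric.tendsto_atTop] at h2
  obtain ⟨N, hN⟩ := h2 (ε / 2) (by positivity)
  refine ⟨N, fun n hn => ?_⟩
  have h3 := hN n hn
  rw [dist_zero_right, norm_norm] at h3 ⊢
  have h4 : ⟪ee n, c (ee n)⟫_ℂ = ⟪ee n, d (ee n)⟫_ℂ + ⟪ee n, (c - d) (ee n)⟫_ℂ := by
    rw [← inner_add_right, sub_apply]; congr 1; abel
  have h5 : ‖⟪ee n, (c - d) (ee n)⟫_ℂ‖ ≤ ‖c - d‖ := by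
    refine (norm_inner_le_norm _ _).trans ?_
    rw [norm_ee, one_mul]
    refine ((c - d).le_opNorm _).trans ?_
    rw [norm_ee, mul_one]
  rw [dist_eq_norm] at hcd
  rw [h4]
  calc _ ≤ ‖⟪ee n, d (ee n)⟫_ℂ‖ + ‖⟪ee n, (c - d) (ee n)⟫_ℂ‖ := norm_add_le _ _
    _ < ε / 2 + ε / 2 := by linarith
    _ = ε := by ring

lemma proj_mem (n : ℕ) : rk (ee n) (ee n) ∈ closedInner FF := by
  refine Submodule.le_topologicalClosure _ (Submodule.subset_span ⟨rk (ee 0) (ee n), ?_,
    rk (ee 0) (ee n), ?_, ?_⟩)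
  · rw [mem_FF]
    ext1 z
    rw [mul_apply_eq_comp]
    simp only [e0, rk_apply, inner_smul_right, inner_ee_self, mul_one]
  · rw [mem_FF]
    ext1 z
    rw [mul_apply_eq_comp]
    simp only [e0, rk_apply, inner_smul_right, inner_ee_self, mul_one]
  · rw [star_rk]
    ext1 z
    rw [mul_apply_eq_comp]
    simp only [rk_apply, inner_smul_right, inner_ee_self, mul_one]

lemma norm_reflection (n : ℕ) : ‖(1 : B) - (2 : ℂ) • rk (ee n) (ee n)‖ ≤ 1 := by
  refine ContinuousLinearMap.opNorm_le_bound _ zero_le_one (fun z => ?_)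
  have h0 : ((1 : B) - (2 : ℂ) • rk (ee n) (ee n)) z = z - (2 * z n) • ee n := by
    rw [sub_apply, smul_apply, rk_apply, inner_ee, smul_smul]; rfl
  rw [h0, one_mul]
  have h1 : ‖z - (2 * z n) • ee n‖ ^ 2 = ‖z‖ ^ 2 := by
    rw [@norm_sub_sq ℂ, norm_smul, norm_ee, mul_one, inner_smul_right, ← inner_conj_symm, inner_ee]
    have h2 : (2 * z n) * (starRingEnd ℂ) (z n) = ((2 * ‖z n‖ ^ 2 : ℝ) : ℂ) := by
      rw [mul_assoc, Complex.mul_conj, Complex.normSq_eq_norm_sq]
      push_cast; ring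
    rw [h2]
    simp only [RCLike.re_to_complex, Complex.ofReal_re, norm_mul, Complex.norm_ofNat]
    ring
  exact (pow_le_pow_iff_left₀ (norm_nonneg _) (norm_nonneg _) two_ne_zero).1 h1.le

/-- There are a C*-algebra `M`, closed ternary subspaces `F ≤ E` of `M` and a contractive linear
idempotent `P` of `E` onto `F` which is not the `(2, 1)` corner of any blockwise conditional
expectation of linking algebras. (In the proof `M` is the algebra of bounded operators on `ℓ²`,
`E = M`, `F = e M` and `P x = e x` for a projection `e` of rank one.) -/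
theorem result :
    ∃ (M : Type) (_ : NonUnitalCStarAlgebra M) (_ : PartialOrder M) (_ : StarOrderedRing M)
      (E F : Submodule ℂ M) (P : M →ₗ[ℂ] M), IsTernary E ∧ IsTernary F ∧ F ≤ E ∧
      (∀ x ∈ E, P x ∈ F) ∧ (∀ x ∈ F, P x = x) ∧ (∀ x ∈ E, ‖P x‖ ≤ ‖x‖) ∧
      ¬ ∃ Φ : Mat2 M → Mat2 M, IsBlockwiseExpectation E F P Φ := by
  refine ⟨B, inferInstance, inferInstance, inferInstance, ⊤, FF, LinearMap.mulLeft ℂ e0,
    ⟨isClosed_univ, fun _ _ _ _ _ _ => trivial⟩,
    ⟨?_, ?_⟩, le_top, ?_, ?_, ?_, ?_⟩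
  · have : (FF : Set B) = {x | e0 * x = x} := rfl
    rw [this]
    exact isClosed_eq (continuous_const.mul continuous_id) continuous_id
  · intro x hx y _ z _
    rw [mem_FF] at hx ⊢
    rw [← mul_assoc, ← mul_assoc, hx]
  · intro x _
    rw [mem_FF, LinearMap.mulLeft_apply, ← mul_assoc, e0_idem]
  · intro x hx
    rw [LinearMap.mulLeft_apply]
    exact hx
  · intro x _
    rw [LinearMap.mulLeft_apply]
    calc ‖e0 * x‖ ≤ ‖e0‖ * ‖x‖ := norm_mul_le _ _
      _ ≤ 1 * ‖x‖ := by
        refine mul_le_mul_of_nonneg_right ?_ (norm_nonneg _)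
        refine (norm_rk_le _ _).trans ?_
        rw [norm_ee, mul_one]
      _ = ‖x‖ := one_mul _
  · rintro ⟨Φ, ⟨hadd, hsmul, hmem, hid, hnorm⟩, -, -⟩
    have hE : ∀ a : B, emb a ∈ linking (⊤ : Submodule ℂ B) := by
      intro a
      refine ⟨?_, trivial, trivial, ?_⟩
      · refine Submodule.le_topologicalClosure _ (Submodule.subset_span ⟨1, trivial, a, trivial, ?_⟩)
        simp [emb]
      · change (0 : B) ∈ _
        exact Submodule.zero_mem _
    have hF : ∀ a ∈ closedInner FF, emb a ∈ linking FF := by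
      intro a ha
      refine ⟨ha, ?_, ?_, ?_⟩
      · change star (0 : B) ∈ _
        rw [star_zero]; exact Submodule.zero_mem _
      · change (0 : B) ∈ _
        exact Submodule.zero_mem _
      · change (0 : B) ∈ _
        exact Submodule.zero_mem _
    have hu : Φ (emb 1) 0 0 ∈ closedInner FF := (hmem _ (hE 1)).1
    have hlim := inner_tendsto hu
    have hbound : ∀ n : ℕ, ‖⟪ee n, (Φ (emb 1) 0 0) (ee n)⟫_ℂ - 2‖ ≤ 1 := by
      intro n
      have h1 : emb ((1 : B) - (2 : ℂ) • rk (ee n) (ee n)) =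
          emb (1 : B) + (-2 : ℂ) • emb (rk (ee n) (ee n)) := by
        ext i j
        fin_cases i <;> fin_cases j <;> simp [emb, sub_eq_add_neg]
      have hp := proj_mem n
      have h2 : Φ (emb ((1 : B) - (2 : ℂ) • rk (ee n) (ee n))) =
          Φ (emb 1) + (-2 : ℂ) • emb (rk (ee n) (ee n)) := by
        have hsm : (-2 : ℂ) • emb (rk (ee n) (ee n)) ∈ linking (⊤ : Submodule ℂ B) := by
          have : (-2 : ℂ) • emb (rk (ee n) (ee n)) = emb ((-2 : ℂ) • rk (ee n) (ee n)) := by
            ext i j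
            fin_cases i <;> fin_cases j <;> simp [emb]
          rw [this]; exact hE _
        rw [h1, hadd _ (hE 1) _ hsm, hsmul _ _ (hE _), hid _ (hF _ hp)]
      have h3 : ‖Φ (emb ((1 : B) - (2 : ℂ) • rk (ee n) (ee n)))‖ ≤ 1 :=
        (hnorm _ (hE _)).trans ((norm_emb_le _).trans (norm_reflection n))
      have h4 : ‖(Φ (emb ((1 : B) - (2 : ℂ) • rk (ee n) (ee n)))) 0 0‖ ≤ 1 :=
        CStarMatrix.norm_entry_le_norm.trans h3
      rw [h2] at h4
      have h5 : (Φ (emb 1) + (-2 : ℂ) • emb (rk (ee n) (ee n))) 0 0 =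
          Φ (emb 1) 0 0 + (-2 : ℂ) • rk (ee n) (ee n) := rfl
      rw [h5] at h4
      have h6 : ⟪ee n, (Φ (emb 1) 0 0 + (-2 : ℂ) • rk (ee n) (ee n)) (ee n)⟫_ℂ =
          ⟪ee n, (Φ (emb 1) 0 0) (ee n)⟫_ℂ - 2 := by
        rw [add_apply, smul_apply, rk_apply, inner_add_right, inner_smul_right, inner_smul_right,
          inner_ee_self]
        ring
      rw [← h6]
      refine (norm_inner_le_norm _ _).trans ?_
      rw [norm_ee, one_mul]
      refine (ContinuousLinearMap.le_opNorm _ _).trans ?_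
      rw [norm_ee, mul_one]
      exact h4
    have h7 : Tendsto (fun n => ‖⟪ee n, (Φ (emb 1) 0 0) (ee n)⟫_ℂ - 2‖) atTop (𝓝 ‖(0 : ℂ) - 2‖) :=
      (hlim.sub_const 2).norm
    have h8 := le_of_tendsto' h7 hbound
    norm_num at h8

end

end Pool.Agent.Results.MP_035205_an.NoBlockwiseExpectation
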